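import Pool.Agent.K3h20.FB.Stm2

/-! Brick DEC2 of project FB (helper20): stable spaces of odd functions on independent blocks.
Adapted from `t_DEC` of helper79. -/

set_option autoImplicit false
set_option linter.all false

namespace Pool.Agent.K3h23.FB

open Pool.Agent.K3h20.FB

theorem t_DEC2 : S_DEC2 := by
  intro X J _ _ H inv hinv hHinv bl hblinv hblH hindep N hodd hstab c hc j
  classical
  haveI : Fintype H := Fintype.ofFinite _
  obtain ⟨P0, hP0⟩ := N.subtype.exists_leftInverse_of_injective (by simp)
  have hP0' : ∀ d (hd : d ∈ N), P0 d = ⟨d, hd⟩ := fun d hd => LinearMap.congr_fun hP0 ⟨d, hd⟩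
  let P : (X → ℚ) →ₗ[ℚ] (X → ℚ) := ∑ h : H, (LinearMap.funLeft ℚ ℚ (h : Equiv.Perm X)) ∘ₗ
    N.subtype ∘ₗ P0 ∘ₗ LinearMap.funLeft ℚ ℚ ((h⁻¹ : H) : Equiv.Perm X)
  have hPa : ∀ (d : X → ℚ) x, P d x = ∑ h : H,
      (P0 (fun z => d (((h⁻¹ : H) : Equiv.Perm X) z)) : X → ℚ) ((h : Equiv.Perm X) x) := by
    intro d x
    simp only [P, LinearMap.sum_apply, Finset.sum_apply, LinearMap.comp_apply]
    rfl
  have hPN : ∀ d, P d ∈ N := by
    intro d
    have h1 : P d = ∑ h : H, (fun x =>
        (P0 (fun z => d (((h⁻¹ : H) : Equiv.Perm X) z)) : X → ℚ) ((h : Equiv.Perm X) x)) := by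
      funext x
      rw [hPa, Finset.sum_apply]
    rw [h1]
    exact Submodule.sum_mem _ fun h _ => hstab h h.2 _ (P0 _).2
  have hPc : ∀ d ∈ N, ∀ x, P d x = (Fintype.card H : ℚ) * d x := by
    intro d hd x
    rw [hPa]
    have h1 : ∀ h : H, (P0 (fun z => d (((h⁻¹ : H) : Equiv.Perm X) z)) : X → ℚ)
        ((h : Equiv.Perm X) x) = d x := by
      intro h
      rw [hP0' _ (hstab _ (h⁻¹).2 d hd)]
      show d (((h⁻¹ : H) : Equiv.Perm X) ((h : Equiv.Perm X) x)) = d x
      congr 1
      exact (h : Equiv.Perm X).symm_apply_apply x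
    simp only [h1, Finset.sum_const, Finset.card_univ, nsmul_eq_mul]
  have hPg : ∀ (g : H) (d : X → ℚ) x,
      P (fun z => d ((g : Equiv.Perm X) z)) x = P d ((g : Equiv.Perm X) x) := by
    intro g d x
    rw [hPa, hPa]
    refine Fintype.sum_equiv (Equiv.mulRight g⁻¹) _ _ fun h => ?_
    have e1 : (Equiv.mulRight g⁻¹) h = h * g⁻¹ := rfl
    rw [e1]
    have e2 : (fun z => d ((((h * g⁻¹)⁻¹ : H) : Equiv.Perm X) z)) =
        fun z => d ((g : Equiv.Perm X) (((h⁻¹ : H) : Equiv.Perm X) z)) := by
      funext z
      rw [mul_inv_rev, inv_inv]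
      rfl
    have e3 : ((h * g⁻¹ : H) : Equiv.Perm X) ((g : Equiv.Perm X) x) = (h : Equiv.Perm X) x := by
      show (((h * g⁻¹ : H) : Equiv.Perm X) * (g : Equiv.Perm X)) x = _
      rw [← Subgroup.coe_mul, inv_mul_cancel_right]
    rw [e2, e3]
  have hvan : ∀ d : X → ℚ, (∀ x, d (inv x) = -d x) → ∀ x, (∀ y, bl y = bl x → d y = 0) →
      P d x = 0 := by
    intro d hd x hx
    let M : X → ℚ := fun y => P (fun z => if y = z then 1 else 0) x
    have hM : P d x = ∑ y, d y * M y := by
      rw [LinearMap.pi_apply_eq_sum_univ P d, Finset.sum_apply]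
      rfl
    have hMi : ∀ y, bl x ≠ bl y → M (inv y) = M y := by
      intro y hy
      have h1 := hindep (fun x y => P (fun z => if y = z then (1 : ℚ) else 0) x -
        P (fun z => if inv y = z then (1 : ℚ) else 0) x) (by
          intro h hh x y
          have e1 : ∀ y, P (fun z => if h y = z then (1 : ℚ) else 0) (h x) =
              P (fun z => if y = z then (1 : ℚ) else 0) x := by
            intro y
            have h2 := hPg (⟨h, hh⟩ : H) (fun z => if h y = z then (1 : ℚ) else 0) x
            have e2 : (fun z => if h y = ((⟨h, hh⟩ : H) : Equiv.Perm X) z then (1 : ℚ) else 0) =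
                fun z => if y = z then (1 : ℚ) else 0 := by
              funext z
              have e3 : (h y = h z) ↔ y = z := h.injective.eq_iff
              show (if h y = h z then (1 : ℚ) else 0) = _
              simp only [e3]
            rw [e2] at h2
            exact h2.symm
          show P (fun z => if h y = z then (1 : ℚ) else 0) (h x) -
            P (fun z => if inv (h y) = z then (1 : ℚ) else 0) (h x) = _
          rw [← hHinv h hh, e1, e1])
        (by
          intro x y
          show P (fun z => if y = z then (1 : ℚ) else 0) (inv x) -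
            P (fun z => if inv y = z then (1 : ℚ) else 0) (inv x) = _
          rw [hodd _ (hPN _), hodd _ (hPN _)]
          ring)
        (by
          intro x y
          show P (fun z => if inv y = z then (1 : ℚ) else 0) x -
            P (fun z => if inv (inv y) = z then (1 : ℚ) else 0) x = _
          rw [hinv]
          ring) x y hy
      have h2 : M y - M (inv y) = 0 := h1
      linarith
    have h2 : ∑ y, d y * M y = ∑ y, d (inv y) * M (inv y) :=
      (Fintype.sum_equiv (Function.Involutive.toPerm inv hinv) _ _ fun y => rfl).symm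
    have h3 : ∑ y, d (inv y) * M (inv y) = -∑ y, d y * M y := by
      rw [← Finset.sum_neg_distrib]
      refine Finset.sum_congr rfl fun y _ => ?_
      rw [hd]
      by_cases hy : bl x = bl y
      · rw [hx y hy.symm]
        simp
      · rw [hMi y hy]
        ring
    rw [hM]
    linarith
  have hcj : ∀ x, P (fun x => if bl x = j then c x else 0) x =
      (Fintype.card H : ℚ) * (if bl x = j then c x else 0) := by
    intro x
    by_cases hx : bl x = j
    · rw [if_pos hx, ← hPc c hc x]
      have h1 := hvan (c - fun x => if bl x = j then c x else 0) (by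
        intro y
        simp only [Pi.sub_apply, hblinv, hodd c hc y]
        split_ifs <;> ring) x (by
        intro y hy
        rw [Pi.sub_apply, if_pos (hy.trans hx), sub_self])
      rw [map_sub, Pi.sub_apply] at h1
      linarith
    · rw [if_neg hx, mul_zero]
      refine hvan _ ?_ x ?_
      · intro y
        simp only [hblinv, hodd c hc y]
        split_ifs <;> ring
      · intro y hy
        rw [if_neg (fun h => hx (hy.symm.trans h))]
  have hcard : (Fintype.card H : ℚ) ≠ 0 := Nat.cast_ne_zero.2 Fintype.card_ne_zero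
  have h5 : (fun x => if bl x = j then c x else 0) =
      (Fintype.card H : ℚ)⁻¹ • P (fun x => if bl x = j then c x else 0) := by
    funext x
    rw [Pi.smul_apply, hcj, smul_eq_mul, inv_mul_cancel_left₀ hcard]
  rw [h5]
  exact N.smul_mem _ (hPN _)

end Pool.Agent.K3h23.FB
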